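import Mathlib

/-!
# Hexagons of the honeycomb lattice and crossing numbers
-/

set_option autoImplicit false

namespace Q214.ON

/-- neighbours (brick-wall coordinates) -/
def Nb (p q : ℤ × ℤ) : Prop :=
  (p.2 = q.2 ∧ (p.1 - q.1 = 1 ∨ q.1 - p.1 = 1)) ∨
    (p.1 = q.1 ∧ ((q.2 = p.2 + 1 ∧ Even (p.1 + p.2)) ∨ (p.2 = q.2 + 1 ∧ Even (q.1 + q.2))))

/-- the hexagon with the lower left vertex `z` (`z.1 + z.2` even): its six vertices -/
def hexagon (z : ℤ × ℤ) : Set (ℤ × ℤ) :=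
  {v | (z.1 ≤ v.1 ∧ v.1 ≤ z.1 + 2) ∧ (z.2 ≤ v.2 ∧ v.2 ≤ z.2 + 1)}

/-- `1` if the step from `x` to `y` crosses the ray to the right of the hexagon `z` upwards, `-1` if it
crosses it downwards, `0` otherwise -/
def crossStep (z x y : ℤ × ℤ) : ℤ :=
  if x.1 = y.1 ∧ z.1 + 2 ≤ x.1 ∧ x.2 = z.2 ∧ y.2 = z.2 + 1 then 1
  else if x.1 = y.1 ∧ z.1 + 2 ≤ x.1 ∧ x.2 = z.2 + 1 ∧ y.2 = z.2 then -1 else 0

/-- the algebraic number of crossings -/
def cross (z : ℤ × ℤ) : List (ℤ × ℤ) → ℤ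
  | x :: y :: l => crossStep z x y + cross z (y :: l)
  | _ => 0

theorem cross_cons (z a b : ℤ × ℤ) (l : List (ℤ × ℤ)) :
    cross z (a :: b :: l) = crossStep z a b + cross z (b :: l) := rfl

theorem cross_append (z a : ℤ × ℤ) (M : List (ℤ × ℤ)) : ∀ L : List (ℤ × ℤ),
    cross z (L ++ a :: M) = cross z (L ++ [a]) + cross z (a :: M) := by
  intro L
  induction L with
  | nil => simp [cross]
  | cons x L ih =>
    rcases L with _ | ⟨y, L⟩
    · simp only [List.cons_append, List.nil_append]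
      rw [cross_cons, cross_cons]
      simp [cross]
    · simp only [List.cons_append] at ih ⊢
      rw [cross_cons, cross_cons, ih]
      ring

/-- potential of the crossing form on the hexagons different from `z` -/
theorem potential {z z' : ℤ × ℤ} (hz : Even (z.1 + z.2)) (hz' : Even (z'.1 + z'.2)) (hne : z' ≠ z) :
    ∃ h : ℤ × ℤ → ℤ, ∀ u v, u ∈ hexagon z' → v ∈ hexagon z' → Nb u v →
      crossStep z u v = h v - h u := by
  obtain ⟨z1, z2⟩ := z
  obtain ⟨x1, x2⟩ := z'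
  rw [Int.even_iff] at hz hz'
  simp only at hz hz'
  have hne' : ¬ (x1 = z1 ∧ x2 = z2) := fun h => hne (by rw [h.1, h.2])
  by_cases h1 : x2 = z2 ∧ z1 + 2 ≤ x1
  · refine ⟨fun v => if z2 + 1 ≤ v.2 then 1 else 0, ?_⟩
    rintro ⟨u1, u2⟩ ⟨v1, v2⟩ hu hv hn
    simp only [hexagon, Set.mem_ofPred_eq, Nb, Int.even_iff] at hu hv hn
    simp only [crossStep]
    split_ifs <;> omega
  · refine ⟨fun _ => 0, ?_⟩
    rintro ⟨u1, u2⟩ ⟨v1, v2⟩ hu hv hn
    simp only [hexagon, Set.mem_ofPred_eq, Nb, Int.even_iff] at hu hv hn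
    simp only [crossStep]
    split_ifs <;> omega

/-- the crossing number does not see the detours around the other hexagons -/
theorem cross_flip {z z' : ℤ × ℤ} (hz : Even (z.1 + z.2)) (hz' : Even (z'.1 + z'.2)) (hne : z' ≠ z)
    {a b c d e f : ℤ × ℤ} {L R : List (ℤ × ℤ)} (hch : [a, b, c, d, e, f, a].IsChain Nb)
    (hm : ∀ x ∈ [a, b, c, d, e, f], x ∈ hexagon z') :
    cross z (L ++ [a, b, c, d, e, f] ++ R) = cross z (L ++ [a, f] ++ R) := by
  obtain ⟨h, hh⟩ := potential hz hz' hne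
  simp only [List.isChain_cons_cons, List.isChain_singleton, and_true] at hch
  obtain ⟨c1, c2, c3, c4, c5, c6⟩ := hch
  have ma := hm a (by simp)
  have mb := hm b (by simp)
  have mc := hm c (by simp)
  have md := hm d (by simp)
  have me := hm e (by simp)
  have mf := hm f (by simp)
  have s1 := hh a b ma mb c1
  have s2 := hh b c mb mc c2
  have s3 := hh c d mc md c3
  have s4 := hh d e md me c4
  have s5 := hh e f me mf c5
  have c6' : Nb a f := by
    rcases c6 with ⟨k1, k2⟩ | ⟨k1, k2⟩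
    · exact Or.inl ⟨k1.symm, k2.symm⟩
    · exact Or.inr ⟨k1.symm, k2.symm⟩
  have s6 := hh a f ma mf c6'
  simp only [List.append_assoc, List.cons_append, List.nil_append]
  rw [cross_append, cross_append z a (f :: R)]
  simp only [cross_cons]
  rw [s1, s2, s3, s4, s5, s6]
  ring

end Q214.ON
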