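import Pool.Agent.Q214.SF.Traj

/-!
# The critical ensemble: functionals which are changed by few downward moves
-/

set_option autoImplicit false

namespace Q214.ON

open Finset Filter Topology TH966.AK Q219.SAW Q215.SAW Q214.SF
open scoped Classical

variable {A : P → P → Prop} {Z : Rule A}

/-- in the domain `D`, at most `j` downward moves change the value of `g` -/
def Few (Z : Rule A) (D : Set P) {β : Type} (j : ℕ) (g : List P → β) : Prop :=
  ∀ w, Walk A w → In D w →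
    ((Z.B w).filter (fun q => g (Rule.rep w q.2 q.1) ≠ g w)).card ≤ j

/-- functionals with values between `-1` and `1` -/
theorem few_inf {D : Set P} {j : ℕ} {g : List P → ℝ}
    (h1 : ∀ w, |g w| ≤ 1) (hg : Few Z D j g) {w : List P} (hw : Walk A w) (hD : In D w) :
    ∑ q ∈ Z.B w, |g (Rule.rep w q.2 q.1) - g w| ≤ (j : ℝ) * 2 := by
  have h2 : ∑ q ∈ Z.B w, |g (Rule.rep w q.2 q.1) - g w| =
      ∑ q ∈ (Z.B w).filter (fun q => g (Rule.rep w q.2 q.1) ≠ g w),
        |g (Rule.rep w q.2 q.1) - g w| := by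
    rw [sum_filter]
    refine sum_congr rfl fun q _ => ?_
    by_cases h : g (Rule.rep w q.2 q.1) = g w
    · simp [h]
    · rw [if_pos h]
  rw [h2]
  refine (sum_le_sum (g := fun _ => (2 : ℝ)) fun q _ => ?_).trans ?_
  · have h2 := abs_sub (g (Rule.rep w q.2 q.1)) (g w)
    have h3 := h1 (Rule.rep w q.2 q.1)
    have h4 := h1 w
    linarith
  · rw [sum_const, nsmul_eq_mul]
    refine mul_le_mul_of_nonneg_right ?_ (by norm_num)
    exact_mod_cast hg w hw hD

/-- functionals which are changed by few downward moves, with given end point -/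
theorem fib_few {μ K : ℝ} (G : Growth Z μ K) (hsh : ∀ U U', Z.T U U' → ∀ x ∈ U, x ∈ U')
    (j : ℕ) :
    ∃ (R δ : ℝ) (n1 : ℕ), 0 < R ∧ 0 < δ ∧ ∀ (D E : Set P) (g : List P → ℝ), (∀ w, |g w| ≤ 1) →
      Few Z D j g → ∀ n : ℕ, n1 ≤ n → ∀ Λ : ℝ, Real.log n ^ 2 ≤ Λ → Λ ≤ δ * n →
      Real.exp (-Λ) * μ ^ n ≤ cD A D (ind E) n →
      |cD A D (fun w => ind E w * g w) (n + Z.s) -
        μ ^ Z.s * cD A D (fun w => ind E w * g w) n| ≤
        R * √(Λ / n) * (μ ^ Z.s * cD A D (ind E) n) := by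
  have hμ := G.hμ
  have hμ0 : 0 < μ := by linarith
  obtain ⟨k, hk⟩ : ∃ k : ℝ, k = (j : ℝ) * 2 := ⟨_, rfl⟩
  have hk0 : 0 ≤ k := by rw [hk]; positivity
  obtain ⟨R, δ, n1, hR, hδ, h⟩ := ratio_inf G hsh k hk0 2
  refine ⟨5 * R, δ, n1, by positivity, hδ, ?_⟩
  intro D E g hg1 hg n hn Λ hΛ1 hΛ2 hlow
  have hlst : ∀ w, Walk A w → ∀ q ∈ Z.B w, ind E (Rule.rep w q.2 q.1) = ind E w := by
    intro w hw q hq
    obtain ⟨-, h3, -, -⟩ := rem_data hsh hw hq
    unfold ind
    rw [h3]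
  have hlen : ∀ w, Walk A w → (4 : ℝ) ≤ (2 * (w.length : ℝ)) ^ 2 := by
    intro w hw
    have h3 : 1 ≤ w.length := List.length_pos_of_ne_nil (walk_ne hw)
    have h4 : (1 : ℝ) ≤ w.length := by exact_mod_cast h3
    nlinarith
  have i1 : InfD Z D k 2 (ind E) := by
    refine ⟨ind_nn E, fun w hw => ?_, fun w hw _ => ?_⟩
    · have := ind_le E w
      have := hlen w hw
      linarith
    · rw [sum_congr rfl fun q hq => by rw [hlst w hw q hq, sub_self, abs_zero], sum_const_zero]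
      exact mul_nonneg hk0 (ind_nn E w)
  have i2 : InfD Z D k 2 (fun w => ind E w * (2 + g w)) := by
    refine ⟨fun w => ?_, fun w hw => ?_, fun w hw hD => ?_⟩
    · have := (abs_le.1 (hg1 w)).1
      exact mul_nonneg (ind_nn E w) (by linarith)
    · have h2 := (abs_le.1 (hg1 w)).2
      have h3 := (abs_le.1 (hg1 w)).1
      have h4 : ind E w * (2 + g w) ≤ 1 * (2 + g w) :=
        mul_le_mul_of_nonneg_right (ind_le E w) (by linarith)
      have := hlen w hw
      linarith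
    · have h2 : ∑ q ∈ Z.B w, |ind E (Rule.rep w q.2 q.1) * (2 + g (Rule.rep w q.2 q.1)) -
          ind E w * (2 + g w)| = ind E w * ∑ q ∈ Z.B w, |g (Rule.rep w q.2 q.1) - g w| := by
        rw [mul_sum]
        refine sum_congr rfl fun q hq => ?_
        rw [hlst w hw q hq, ← mul_sub, abs_mul, abs_of_nonneg (ind_nn E w)]
        congr 2
        ring
      rw [h2]
      have h3 := few_inf hg1 hg hw hD
      rw [← hk] at h3
      have h4 := (abs_le.1 (hg1 w)).1
      calc ind E w * ∑ q ∈ Z.B w, |g (Rule.rep w q.2 q.1) - g w| ≤ ind E w * k :=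
            mul_le_mul_of_nonneg_left h3 (ind_nn E w)
        _ = k * (ind E w * 1) := by ring
        _ ≤ k * (ind E w * (2 + g w)) := by
            refine mul_le_mul_of_nonneg_left (mul_le_mul_of_nonneg_left ?_ (ind_nn E w)) hk0
            linarith
  obtain ⟨c0, hc0⟩ : ∃ c0, c0 = cD A D (ind E) n := ⟨_, rfl⟩
  obtain ⟨c1, hc1⟩ : ∃ c1, c1 = cD A D (ind E) (n + Z.s) := ⟨_, rfl⟩
  obtain ⟨g0, hg0⟩ : ∃ g0, g0 = cD A D (fun w => ind E w * g w) n := ⟨_, rfl⟩
  obtain ⟨g1, hg1'⟩ : ∃ g1, g1 = cD A D (fun w => ind E w * g w) (n + Z.s) := ⟨_, rfl⟩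
  have e2 : ∀ m, cD A D (fun w => ind E w * (2 + g w)) m =
      2 * cD A D (ind E) m + cD A D (fun w => ind E w * g w) m := by
    intro m
    unfold cD
    rw [mul_sum, ← sum_add_distrib]
    exact sum_congr rfl fun w _ => by ring
  have hgc : |g0| ≤ c0 := by
    rw [hg0, hc0]
    unfold cD
    refine (abs_sum_le_sum_abs _ _).trans (sum_le_sum fun w _ => ?_)
    rw [abs_mul, abs_of_nonneg (ind_nn E w)]
    exact mul_le_of_le_one_right (ind_nn E w) (hg1 w)
  have hpos : 0 < c0 := by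
    rw [hc0]
    exact lt_of_lt_of_le (by positivity) hlow
  have a1 := h D _ i1 n hn Λ hΛ1 hΛ2 hlow
  have a2 := h D _ i2 n hn Λ hΛ1 hΛ2 (by
    refine hlow.trans ?_
    rw [e2]
    rw [← hc0, ← hg0]
    have := (abs_le.1 hgc).1
    linarith)
  rw [e2, e2] at a2
  rw [← hc0, ← hc1] at a1 a2
  rw [← hg0, ← hg1'] at a2
  rw [← hg1', ← hg0, ← hc0]
  obtain ⟨ε, hε⟩ : ∃ ε, ε = R * √(Λ / n) := ⟨_, rfl⟩
  have hε0 : 0 ≤ ε := by rw [hε]; positivity
  rw [← hε] at a1 a2
  obtain ⟨M, hM⟩ : ∃ M, M = μ ^ Z.s := ⟨_, rfl⟩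
  have hM0 : 0 < M := by rw [hM]; positivity
  rw [← hM] at a1 a2 ⊢
  have b1 : |c1 - M * c0| ≤ ε * (M * c0) := by
    have e3 : c1 - M * c0 = (c1 / c0 / M - 1) * (M * c0) := by field_simp
    rw [e3, abs_mul, abs_of_pos (mul_pos hM0 hpos)]
    exact mul_le_mul_of_nonneg_right a1 (mul_pos hM0 hpos).le
  have hq : 0 < 2 * c0 + g0 := by
    have := (abs_le.1 hgc).1
    linarith
  have b2 : |(2 * c1 + g1) - M * (2 * c0 + g0)| ≤ ε * (M * (2 * c0 + g0)) := by
    have e3 : (2 * c1 + g1) - M * (2 * c0 + g0) =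
        ((2 * c1 + g1) / (2 * c0 + g0) / M - 1) * (M * (2 * c0 + g0)) := by field_simp
    rw [e3, abs_mul, abs_of_pos (mul_pos hM0 hq)]
    exact mul_le_mul_of_nonneg_right a2 (mul_pos hM0 hq).le
  have e4 : g1 - M * g0 = ((2 * c1 + g1) - M * (2 * c0 + g0)) - 2 * (c1 - M * c0) := by ring
  rw [e4]
  refine (abs_sub _ _).trans ?_
  rw [abs_mul, abs_of_pos (show (0 : ℝ) < 2 by norm_num)]
  have b3 : ε * (M * (2 * c0 + g0)) ≤ ε * (M * (3 * c0)) := by
    refine mul_le_mul_of_nonneg_left (mul_le_mul_of_nonneg_left ?_ hM0.le) hε0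
    have := (abs_le.1 hgc).2
    linarith
  calc |(2 * c1 + g1) - M * (2 * c0 + g0)| + 2 * |c1 - M * c0| ≤
        ε * (M * (3 * c0)) + 2 * (ε * (M * c0)) := by linarith
    _ = 5 * R * √(Λ / n) * (M * c0) := by rw [hε]; ring

/-- **the critical ensemble**: the joint law of the length and of a functional which is changed by few
downward moves hardly changes when the length is shifted -/
theorem crit_few {μ K : ℝ} (G : Growth Z μ K) (hsh : ∀ U U', Z.T U U' → ∀ x ∈ U, x ∈ U')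
    (j : ℕ) :
    ∃ (R δ : ℝ) (m0 : ℕ), 0 < R ∧ 0 < δ ∧ ∀ (D E : Set P) (m M : ℕ) (Λ : ℝ), m0 ≤ m → m ≤ M →
      (∀ n, n < m → cD A D (ind E) n = 0) →
      Real.log M ^ 2 ≤ Λ → Λ ≤ δ * m →
      Real.exp (-Λ) ≤ ∑ n ∈ range (M + 1), cD A D (ind E) n / μ ^ n →
      ∀ g : ℕ → List P → ℝ, (∀ n w, |g n w| ≤ 1) → (∀ n, Few Z D j (g n)) →
      ∑ n ∈ range (M + 1), |cD A D (fun w => ind E w * g n w) (n + Z.s) / μ ^ (n + Z.s) -
        cD A D (fun w => ind E w * g n w) n / μ ^ n| ≤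
      R * √(Λ / m) * ∑ n ∈ range (M + 1), cD A D (ind E) n / μ ^ n := by
  have hμ := G.hμ
  have hμ0 : 0 < μ := by linarith
  have hs := G.hs
  obtain ⟨R0, δ0, n0, hR0, hδ0, hrat⟩ := fib_few G hsh j
  obtain ⟨Cd, δd, nd, hCd, hδd, hdown⟩ := down_dom G hsh
  have hCd0 : 0 < Cd := by linarith
  refine ⟨R0 * √(8 * Cd) + 1, min (δ0 / (8 * Cd)) (δd / 8), 2 * (n0 + nd + Z.s) + 8,
    by positivity, lt_min (by positivity) (by positivity), ?_⟩
  intro D E m M Λ hm hmM hlow hΛ1 hΛ2 hZ g hg1 hg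
  obtain ⟨c, hc⟩ : ∃ c : ℕ → ℝ, c = fun n => cD A D (ind E) n := ⟨_, rfl⟩
  have hcn : ∀ n, cD A D (ind E) n = c n := fun n => by rw [hc]
  simp only [hcn] at hlow hZ ⊢
  have hc0 : ∀ n, 0 ≤ c n := fun n => by rw [hc]; exact cD_nonneg (ind_nn E) n
  obtain ⟨ZZ, hZZ⟩ : ∃ ZZ, ZZ = ∑ n ∈ range (M + 1), c n / μ ^ n := ⟨_, rfl⟩
  rw [← hZZ] at hZ ⊢
  have hm8 : (8 : ℝ) ≤ m := by exact_mod_cast (show 8 ≤ m by omega)
  have hm0 : (0 : ℝ) < m := by linarith
  have hmM' : (m : ℝ) ≤ M := by exact_mod_cast hmM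
  have hM8 : (8 : ℝ) ≤ M := by linarith
  have hM0 : (0 : ℝ) < M := by linarith
  have hlog8 : (2 : ℝ) ≤ Real.log 8 := by
    have h1 : Real.log 8 = 3 * Real.log 2 := by
      rw [show (8 : ℝ) = 2 ^ 3 by norm_num, Real.log_pow]
      norm_num
    rw [h1]
    have := Real.log_two_gt_d9
    linarith
  have hlogM : 2 ≤ Real.log M := hlog8.trans (Real.log_le_log (by norm_num) hM8)
  have hlogm0 : 0 ≤ Real.log m := Real.log_nonneg (by linarith)
  have hlogmM : Real.log m ≤ Real.log M := Real.log_le_log hm0 hmM'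
  have hΛM : 2 * Real.log M ≤ Λ := by
    refine le_trans ?_ hΛ1
    rw [sq]
    exact mul_le_mul_of_nonneg_right hlogM (by linarith)
  have hΛ4 : 4 ≤ Λ := by linarith
  obtain ⟨Λ1, hΛ1d⟩ : ∃ Λ1, Λ1 = 4 * Λ := ⟨_, rfl⟩
  obtain ⟨Λ2, hΛ2d⟩ : ∃ Λ2, Λ2 = Cd * Λ1 := ⟨_, rfl⟩
  have hΛ12 : Λ1 ≤ Λ2 := by rw [hΛ2d]; exact le_mul_of_one_le_left (by linarith) hCd
  have hδ1 : Λ ≤ δ0 / (8 * Cd) * m := hΛ2.trans (mul_le_mul_of_nonneg_right (min_le_left _ _) hm0.le)
  have hδ2 : Λ ≤ δd / 8 * m := hΛ2.trans (mul_le_mul_of_nonneg_right (min_le_right _ _) hm0.le)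
  -- each term
  have hterm : ∀ n ∈ range (M + 1), |cD A D (fun w => ind E w * g n w) (n + Z.s) / μ ^ (n + Z.s) -
        cD A D (fun w => ind E w * g n w) n / μ ^ n| ≤
      R0 * √(8 * Cd) * √(Λ / m) * (c n / μ ^ n) + 2 * Real.exp (-Λ1) := by
    intro n hn
    rw [mem_range] at hn
    have ha := cD_ind_le (A := A) (D := D) (E := E) (hg1 n) n
    have hb := cD_ind_le (A := A) (D := D) (E := E) (hg1 n) (n + Z.s)
    rw [hcn] at ha hb
    obtain ⟨x0, hx0⟩ : ∃ x0, x0 = cD A D (fun w => ind E w * g n w) n := ⟨_, rfl⟩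
    obtain ⟨x1, hx1⟩ : ∃ x1, x1 = cD A D (fun w => ind E w * g n w) (n + Z.s) := ⟨_, rfl⟩
    rw [← hx0] at ha ⊢
    rw [← hx1] at hb ⊢
    have hp0 : 0 < μ ^ n := by positivity
    have hp1 : 0 < μ ^ (n + Z.s) := by positivity
    have hpos : 0 ≤ R0 * √(8 * Cd) * √(Λ / m) * (c n / μ ^ n) :=
      mul_nonneg (by positivity) (div_nonneg (hc0 n) hp0.le)
    have hexp0 : 0 ≤ Real.exp (-Λ1) := (Real.exp_pos _).le
    rcases lt_or_ge (n + Z.s) m with h1 | h1
    · rw [hlow n (by omega)] at ha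
      rw [hlow _ h1] at hb
      rw [abs_nonpos_iff.1 ha, abs_nonpos_iff.1 hb, zero_div, zero_div, sub_zero, abs_zero]
      linarith
    · have hnm : (m : ℝ) / 2 ≤ n := by
        rw [div_le_iff₀ (by norm_num)]
        exact_mod_cast (show m ≤ n * 2 by omega)
      have hn0 : (0 : ℝ) < n := by linarith
      have hnM : (n : ℝ) ≤ M := by exact_mod_cast (show n ≤ M by omega)
      have hlogn : Real.log n ^ 2 ≤ Λ := by
        refine le_trans (pow_le_pow_left₀ (Real.log_nonneg (by linarith)) ?_ 2) hΛ1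
        exact Real.log_le_log hn0 hnM
      rcases le_or_gt (Real.exp (-Λ2) * μ ^ n) (c n) with h2 | h2
      · have h3 := hrat D E (g n) (hg1 n) (hg n) n (by omega) Λ2 (by linarith) (by
          rw [hΛ2d, hΛ1d]
          have h4 : Cd * (4 * Λ) ≤ Cd * (4 * (δ0 / (8 * Cd) * m)) := by
            refine mul_le_mul_of_nonneg_left (mul_le_mul_of_nonneg_left hδ1 (by norm_num)) hCd0.le
          have h5 : Cd * (4 * (δ0 / (8 * Cd) * m)) = δ0 * (m / 2) := by
            field_simp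
            norm_num
          rw [h5] at h4
          exact h4.trans (mul_le_mul_of_nonneg_left hnm hδ0.le)) (by rw [hcn]; exact h2)
        rw [hcn, ← hx0, ← hx1] at h3
        have e : x1 / μ ^ (n + Z.s) - x0 / μ ^ n = (x1 - μ ^ Z.s * x0) / μ ^ (n + Z.s) := by
          rw [pow_add]
          field_simp
        rw [e, abs_div, abs_of_pos hp1, div_le_iff₀ hp1]
        have h6 : √(Λ2 / n) ≤ √(8 * Cd) * √(Λ / m) := by
          rw [← Real.sqrt_mul (by positivity)]
          refine Real.sqrt_le_sqrt ?_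
          rw [div_le_iff₀ hn0, hΛ2d, hΛ1d]
          have h7 : 8 * Cd * (Λ / m) * (m / 2) ≤ 8 * Cd * (Λ / m) * n :=
            mul_le_mul_of_nonneg_left hnm (by positivity)
          refine le_trans (le_of_eq ?_) h7
          field_simp
          ring
        have h8 : R0 * √(Λ2 / n) * (μ ^ Z.s * c n) ≤
            R0 * (√(8 * Cd) * √(Λ / m)) * (μ ^ Z.s * c n) := by
          refine mul_le_mul_of_nonneg_right (mul_le_mul_of_nonneg_left h6 hR0.le) ?_
          exact mul_nonneg (by positivity) (hc0 n)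
        have h9 : R0 * (√(8 * Cd) * √(Λ / m)) * (μ ^ Z.s * c n) =
            R0 * √(8 * Cd) * √(Λ / m) * (c n / μ ^ n) * μ ^ (n + Z.s) := by
          rw [pow_add]
          field_simp
        have h10 : 0 ≤ 2 * Real.exp (-Λ1) * μ ^ (n + Z.s) := by positivity
        rw [add_mul]
        linarith
      · have h3 : c (n + Z.s) < Real.exp (-Λ1) * μ ^ (n + Z.s) := by
          by_contra hcon
          push Not at hcon
          have h4 := hdown D (ind E) (wtD_ind _ _) n (by omega) Λ1 (by linarith) (by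
            rw [hΛ1d]
            have h5 : 4 * Λ ≤ 4 * (δd / 8 * m) := by linarith
            have h6 : 4 * (δd / 8 * m) = δd * (m / 2) := by ring
            rw [h6] at h5
            exact h5.trans (mul_le_mul_of_nonneg_left hnm hδd.le)) (by rw [hcn]; exact hcon)
          rw [hcn, ← hΛ2d] at h4
          linarith
        have h4 : c n ≤ Real.exp (-Λ1) * μ ^ n := by
          refine h2.le.trans (mul_le_mul_of_nonneg_right ?_ hp0.le)
          exact Real.exp_le_exp.2 (by linarith)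
        have h5 : |x1 / μ ^ (n + Z.s)| ≤ Real.exp (-Λ1) := by
          rw [abs_div, abs_of_pos hp1, div_le_iff₀ hp1]
          exact hb.trans h3.le
        have h6 : |x0 / μ ^ n| ≤ Real.exp (-Λ1) := by
          rw [abs_div, abs_of_pos hp0, div_le_iff₀ hp0]
          exact ha.trans h4
        have h7 := abs_sub (x1 / μ ^ (n + Z.s)) (x0 / μ ^ n)
        linarith
  refine (sum_le_sum hterm).trans ?_
  rw [sum_add_distrib, ← mul_sum, ← hZZ, sum_const, card_range, nsmul_eq_mul]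
  have hZ0 : 0 < ZZ := lt_of_lt_of_le (Real.exp_pos _) hZ
  have hfin : ((M + 1 : ℕ) : ℝ) * (2 * Real.exp (-Λ1)) ≤ √(Λ / m) * ZZ := by
    have h1 : ((M + 1 : ℕ) : ℝ) * 2 ≤ Real.exp (2 * Real.log M) := by
      have h2 : Real.exp (2 * Real.log M) = (M : ℝ) * M := by
        rw [two_mul, Real.exp_add, Real.exp_log hM0]
      rw [h2]
      push_cast
      have h3 : 8 * (M : ℝ) ≤ M * M := mul_le_mul_of_nonneg_right hM8 hM0.le
      linarith
    have h2 : 1 / (m : ℝ) ≤ √(Λ / m) := by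
      refine Real.le_sqrt_of_sq_le ?_
      rw [div_pow, one_pow]
      rw [div_le_div_iff₀ (by positivity) hm0]
      have h3 : (1 : ℝ) * m ≤ Λ * m := mul_le_mul_of_nonneg_right (by linarith) hm0.le
      have h4 : Λ * m * 1 ≤ Λ * m * m := mul_le_mul_of_nonneg_left (by linarith) (by positivity)
      calc (1 : ℝ) * m ≤ Λ * m := h3
        _ ≤ Λ * m * m := by linarith
        _ = Λ * (m : ℝ) ^ 2 := by ring
    have h3 : Real.exp (-Λ) ≤ 1 / m := by
      rw [le_div_iff₀ hm0]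
      have h4 : (m : ℝ) = Real.exp (Real.log m) := (Real.exp_log hm0).symm
      rw [h4, ← Real.exp_add, Real.exp_le_one_iff]
      linarith
    calc ((M + 1 : ℕ) : ℝ) * (2 * Real.exp (-Λ1)) = ((M + 1 : ℕ) : ℝ) * 2 * Real.exp (-Λ1) := by
          ring
      _ ≤ Real.exp (2 * Real.log M) * Real.exp (-Λ1) :=
          mul_le_mul_of_nonneg_right h1 (Real.exp_pos _).le
      _ = Real.exp (2 * Real.log M - Λ1) := by rw [← Real.exp_add]; congr 1
      _ ≤ Real.exp (-Λ + -Λ) := Real.exp_le_exp.2 (by rw [hΛ1d]; linarith)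
      _ = Real.exp (-Λ) * Real.exp (-Λ) := Real.exp_add _ _
      _ ≤ √(Λ / m) * ZZ := mul_le_mul (h3.trans h2) hZ (Real.exp_pos _).le (Real.sqrt_nonneg _)
  rw [add_mul, add_mul, one_mul]
  linarith

/-- **the critical ensemble of the trajectories** -/
theorem traj_few {μ K : ℝ} (G : Growth Z μ K) (hsh : ∀ U U', Z.T U U' → ∀ x ∈ U, x ∈ U')
    (V : Vt A) (j : ℕ) :
    ∃ (R δ : ℝ) (m0 : ℕ), 0 < R ∧ 0 < δ ∧ ∀ (D : Set P) (p q : P) (m M : ℕ) (Λ : ℝ), m0 ≤ m →
      m ≤ M → D.Finite → D.ncard ≤ M + 1 → (∀ l ∈ Tr A D p q, m + 1 ≤ l.length) →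
      Real.log M ^ 2 ≤ Λ → Λ ≤ δ * m →
      Real.exp (-Λ) ≤ wt A μ D p q (fun _ => True) →
      ∀ Q : ℕ → List P → Prop,
      (∀ n, Few Z (DV V D p) j (fun v => if Q n (v.map (V.φ p)) then (1 : ℝ) else 0)) →
      |wt A μ D p q (fun l => Q (l.length - 1 + Z.s) l) -
        wt A μ D p q (fun l => Q (l.length - 1) l)| ≤
      R * √(Λ / m) * wt A μ D p q (fun _ => True) := by
  have hμ := G.hμ
  have hμ0 : 0 < μ := by linarith
  obtain ⟨R, δ, m0, hR, hδ, h⟩ := crit_few G hsh j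
  refine ⟨R, δ, max m0 Z.s, hR, hδ, ?_⟩
  intro D p q m M Λ hm hmM hD hDM hlen hΛ1 hΛ2 hZ Q hQ
  have hmm : m0 ≤ m := (le_max_left _ _).trans hm
  have hms : Z.s ≤ m := (le_max_right _ _).trans hm
  obtain ⟨q', hq'⟩ : ∃ q', q' = (V.φ p).symm q := ⟨_, rfl⟩
  have hlow : ∀ n, n < m → cD A (DV V D p) (ind {q'}) n = 0 := by
    intro n hn
    unfold cD ind
    rw [Finset.sum_eq_zero]
    intro w hw
    rw [if_neg]
    intro hc
    rw [Set.mem_singleton_iff, hq'] at hc
    obtain ⟨h1, h2⟩ := map_mem (Z := Z) V hw hc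
    have := hlen _ h1
    omega
  have hbig : ∀ (f : List P → ℝ) n, M < n → cD A (DV V D p) f n = 0 := fun f n hn =>
    cD_big (Z := Z) V hD p hDM f hn
  have e0 : wt A μ D p q (fun _ => True) = ∑ n ∈ range (M + 1),
      cD A (DV V D p) (ind {q'}) n / μ ^ n := by
    have := wt_eq Z V (μ := μ) hD p q hDM (fun _ _ => True)
    rw [this]
    refine sum_congr rfl fun n _ => ?_
    simp only [if_true, mul_one, hq']
  obtain ⟨g, hg⟩ : ∃ g : ℕ → List P → ℝ, g = fun n v =>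
      if Q (n + Z.s) (v.map (V.φ p)) then 1 else 0 := ⟨_, rfl⟩
  have hg1 : ∀ n w, |g n w| ≤ 1 := by
    intro n w
    rw [hg]
    simp only
    split_ifs <;> norm_num
  have hgd : ∀ n, Few Z (DV V D p) j (g n) := by
    intro n
    rw [hg]
    exact hQ (n + Z.s)
  have e1 : wt A μ D p q (fun l => Q (l.length - 1 + Z.s) l) =
      ∑ n ∈ range (M + 1), cD A (DV V D p) (fun v => ind {q'} v * g n v) n / μ ^ n := by
    rw [wt_eq Z V hD p q hDM (fun n l => Q (n + Z.s) l), hg, hq']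
  have e2 : wt A μ D p q (fun l => Q (l.length - 1) l) =
      ∑ n ∈ range (M + 1), cD A (DV V D p) (fun v => ind {q'} v * g n v) (n + Z.s) /
        μ ^ (n + Z.s) := by
    rw [wt_eq Z V hD p q hDM (fun n l => Q n l), hg, ← hq']
    obtain ⟨a, ha⟩ : ∃ a : ℕ → ℝ, a = fun n => cD A (DV V D p) (fun v => ind {q'} v *
        (if Q n (v.map (V.φ p)) then 1 else 0)) n / μ ^ n := ⟨_, rfl⟩
    have haM : ∀ n, M < n → a n = 0 := fun n hn => by rw [ha]; simp only; rw [hbig _ n hn, zero_div]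
    have ham : ∀ n, n < m → a n = 0 := by
      intro n hn
      have h1 := cD_ind_le (A := A) (D := DV V D p) (E := {q'})
        (g := fun v => if Q n (v.map (V.φ p)) then 1 else 0)
        (fun w => by split_ifs <;> norm_num) n
      rw [hlow n hn] at h1
      rw [ha]
      simp only
      rw [abs_nonpos_iff.1 h1, zero_div]
    have e3 : ∑ n ∈ range (M + 1), a n = ∑ n ∈ range (Z.s + (M + 1)), a n := by
      refine sum_subset (range_subset_range.2 (by omega)) fun n _ hn => haM n ?_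
      rw [mem_range] at hn
      omega
    have e4 : ∑ n ∈ range (Z.s + (M + 1)), a n = ∑ n ∈ range (M + 1), a (n + Z.s) := by
      rw [Finset.sum_range_add]
      rw [Finset.sum_eq_zero (s := range Z.s), zero_add]
      · exact sum_congr rfl fun n _ => by rw [add_comm]
      · intro n hn
        rw [mem_range] at hn
        exact ham n (by omega)
    have e5 := e3.trans e4
    rw [ha] at e5
    exact e5
  have h1 := h (DV V D p) {q'} m M Λ hmm hmM hlow hΛ1 hΛ2 (by rw [← e0]; exact hZ) g hg1 hgd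
  rw [← e0] at h1
  rw [e1, e2, abs_sub_comm, ← sum_sub_distrib]
  exact (abs_sum_le_sum_abs _ _).trans h1

end Q214.ON
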