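import Pool.Agent.Q214.ON.Few
import Pool.Agent.Q214.SF.HexC
import Pool.Agent.Q214.ON.Crs

/-!
# Critical walks on the honeycomb lattice: events which do not see the detours around hexagons
-/

set_option autoImplicit false

namespace Q214.ON

open Finset Filter Topology TH966.AK Q219.SAW Q215.SAW Q214.SF
open Pool.Agent.W832.HR (Nbr Traj emb HD Hd Bd lv)
open scoped Classical

/-- functionals which are changed by few downward moves -/
theorem hex_few (j : ℕ) : ∃ C : ℝ, 0 < C ∧ ∀ (D : Set P) (p q : P), D.Finite →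
    1 ≤ ‖emb p - emb q‖ → 0 < wH D p q (fun _ => True) →
    ∀ Λ : ℝ, Real.log D.ncard ^ 2 ≤ Λ → Real.log (1 / wH D p q (fun _ => True)) ≤ Λ →
    ∀ Q : ℕ → List P → Prop,
    (∀ n, Few Hex4.rule (DV hexV D p) j (fun v => if Q n (v.map (hexV.φ p)) then (1 : ℝ) else 0)) →
    |wH D p q (fun l => Q (l.length - 1 + 4) l) / wH D p q (fun _ => True) -
      wH D p q (fun l => Q (l.length - 1) l) / wH D p q (fun _ => True)| ≤
      C * √(Λ / ‖emb p - emb q‖) := by
  obtain ⟨K0, hN⟩ := hex4_nice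
  obtain ⟨R, δ, m0, hR, hδ, h⟩ := traj_few hN.gr hN.sh hexV j
  have hl2 : 0 < Real.log 2 := Real.log_pos (by norm_num)
  refine ⟨2 * R + √((m0 : ℝ) + 1) / Real.log 2 + √(2 / δ), by positivity, ?_⟩
  intro D p q hD hd hw Λ hΛ1 hΛ2 Q hQ
  obtain ⟨l0, hl0⟩ := wH_exists hw
  have hlen : ∀ l ∈ Traj D p q, ‖emb p - emb q‖ ≤ (l.length : ℝ) - 1 := by
    intro l hl
    rw [Traj_eq] at hl
    exact chain_dist hl.2.2.2.1 hl.1 hl.2.1
  have hlenD : ∀ l ∈ Traj D p q, l.length ≤ D.ncard := by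
    intro l hl
    exact len_le hD hl.2.2.1 hl.2.2.2.2
  obtain ⟨d, hdd⟩ : ∃ d, d = ‖emb p - emb q‖ := ⟨_, rfl⟩
  rw [← hdd] at hd hlen ⊢
  have hd0 : 0 < d := by linarith
  have hDn : (2 : ℝ) ≤ D.ncard := by
    have h1 := hlen l0 hl0
    have h2 : (l0.length : ℝ) ≤ D.ncard := by exact_mod_cast hlenD l0 hl0
    linarith
  have hlogD : Real.log 2 ≤ Real.log D.ncard := Real.log_le_log (by norm_num) hDn
  have hΛ3 : Real.log 2 ^ 2 ≤ Λ := (pow_le_pow_left₀ hl2.le hlogD 2).trans hΛ1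
  have hΛ0 : 0 < Λ := lt_of_lt_of_le (by positivity) hΛ3
  obtain ⟨W, hW⟩ : ∃ W, W = wH D p q (fun _ => True) := ⟨_, rfl⟩
  obtain ⟨W1, hW1⟩ : ∃ W1, W1 = wH D p q (fun l => Q (l.length - 1 + 4) l) :=
    ⟨_, rfl⟩
  obtain ⟨W2, hW2⟩ : ∃ W2, W2 = wH D p q (fun l => Q (l.length - 1) l) :=
    ⟨_, rfl⟩
  rw [← hW] at hw hΛ2 ⊢
  rw [← hW1, ← hW2]
  have hW1l : W1 ≤ W := by rw [hW1, hW]; exact wH_le hD _ _ _
  have hW2l : W2 ≤ W := by rw [hW2, hW]; exact wH_le hD _ _ _
  have hW10 : 0 ≤ W1 := by rw [hW1]; exact wH_nonneg _ _ _ _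
  have hW20 : 0 ≤ W2 := by rw [hW2]; exact wH_nonneg _ _ _ _
  have triv : |W1 / W - W2 / W| ≤ 1 := by
    have a1 : W1 / W ≤ 1 := div_le_one_of_le₀ hW1l hw.le
    have a2 : 0 ≤ W1 / W := div_nonneg hW10 hw.le
    have a3 : W2 / W ≤ 1 := div_le_one_of_le₀ hW2l hw.le
    have a4 : 0 ≤ W2 / W := div_nonneg hW20 hw.le
    rw [abs_le]
    constructor <;> linarith
  have hX : 0 ≤ √(Λ / d) := Real.sqrt_nonneg _
  have t1 : 0 ≤ 2 * R * √(Λ / d) := by positivity
  have t2 : 0 ≤ √((m0 : ℝ) + 1) / Real.log 2 * √(Λ / d) := by positivity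
  have t3 : 0 ≤ √(2 / δ) * √(Λ / d) := by positivity
  rw [add_mul, add_mul]
  rcases lt_or_ge d ((m0 : ℝ) + 1) with h1 | h1
  · have h2 : 1 ≤ √((m0 : ℝ) + 1) / Real.log 2 * √(Λ / d) := by
      rw [div_mul_eq_mul_div, one_le_div hl2, ← Real.sqrt_mul (by positivity),
        Real.le_sqrt' hl2]
      refine hΛ3.trans ?_
      rw [mul_div_assoc', le_div_iff₀ hd0, mul_comm]
      exact mul_le_mul_of_nonneg_right h1.le hΛ0.le
    linarith
  obtain ⟨m, hm⟩ : ∃ m, m = ⌊d⌋₊ := ⟨_, rfl⟩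
  have hmd : (m : ℝ) ≤ d := by rw [hm]; exact Nat.floor_le hd0.le
  have hdm : d < m + 1 := by rw [hm]; exact Nat.lt_floor_add_one d
  have hmm0 : m0 ≤ m := by
    have : (m0 : ℝ) < m + 1 := by linarith
    have : m0 < m + 1 := by exact_mod_cast this
    omega
  have hm1 : (1 : ℝ) ≤ m := by
    rw [hm]
    exact_mod_cast Nat.le_floor (by exact_mod_cast hd)
  have hm0 : (0 : ℝ) < m := by linarith
  have hmd2 : d ≤ 2 * m := by linarith
  rcases lt_or_ge (δ * m) Λ with h2 | h2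
  · have h3 : 1 ≤ √(2 / δ) * √(Λ / d) := by
      rw [← Real.sqrt_mul (by positivity), Real.one_le_sqrt, div_mul_div_comm, one_le_div
        (by positivity)]
      have := mul_le_mul_of_nonneg_left hmd2 hδ.le
      linarith
    linarith
  have hmM : m + 1 ≤ D.ncard := by
    have h3 := hlen l0 hl0
    have h4 : (l0.length : ℝ) ≤ D.ncard := by exact_mod_cast hlenD l0 hl0
    have h5 : ((m + 1 : ℕ) : ℝ) ≤ D.ncard := by
      push_cast
      linarith
    exact_mod_cast h5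
  have hMle : Real.log ((D.ncard - 1 : ℕ) : ℝ) ^ 2 ≤ Λ := by
    refine le_trans (pow_le_pow_left₀ ?_ ?_ 2) hΛ1
    · exact Real.log_natCast_nonneg _
    · refine Real.log_le_log ?_ ?_
      · have : 0 < D.ncard - 1 := by
          have : (1 : ℝ) ≤ m := hm1
          have : 1 ≤ m := by exact_mod_cast this
          omega
        exact_mod_cast this
      · exact_mod_cast Nat.sub_le _ _
  have hlow : Real.exp (-Λ) ≤ W := by
    rw [one_div, Real.log_inv] at hΛ2
    rw [← Real.exp_log hw]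
    exact Real.exp_le_exp.2 (by linarith)
  have hfin := h D p q m (D.ncard - 1) Λ hmm0 (by omega) hD (by omega) (by
      intro l hl
      rw [← Traj_eq] at hl
      have h3 := hlen l hl
      have h4 : ((m + 1 : ℕ) : ℝ) ≤ l.length := by
        push_cast
        linarith
      exact_mod_cast h4) hMle h2 (by rw [← wH_eq, ← hW]; exact hlow) Q hQ
  rw [← wH_eq, ← wH_eq, ← wH_eq] at hfin
  have hs : Hex4.rule.s = 4 := rfl
  rw [hs, ← hW, ← hW1, ← hW2] at hfin
  have h5 : |W1 / W - W2 / W| ≤ R * √(Λ / m) := by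
    rw [← sub_div, abs_div, abs_of_pos hw, div_le_iff₀ hw]
    exact hfin
  have h6 : √(Λ / m) ≤ 2 * √(Λ / d) := by
    have h7 : √(Λ / m) ≤ √(4 * (Λ / d)) := by
      refine Real.sqrt_le_sqrt ?_
      rw [div_le_iff₀ hm0, mul_assoc, div_mul_eq_mul_div, mul_div_assoc', le_div_iff₀ hd0]
      have := mul_le_mul_of_nonneg_left hmd2 hΛ0.le
      nlinarith
    refine h7.trans (le_of_eq ?_)
    rw [Real.sqrt_mul (by norm_num), show (4 : ℝ) = 2 ^ 2 by norm_num,
      Real.sqrt_sq (by norm_num)]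
  have h7 : R * √(Λ / m) ≤ R * (2 * √(Λ / d)) := mul_le_mul_of_nonneg_left h6 hR.le
  linarith

/-- `l` is obtained from `l'` by replacing five edges of the hexagon `z` by the sixth -/
def Flip (z : P) (l l' : List P) : Prop :=
  Even (z.1 + z.2) ∧ ∃ (L R : List P) (a b c d e f : P), [a, b, c, d, e, f].Nodup ∧
    [a, b, c, d, e, f, a].IsChain Nbr ∧ (∀ x ∈ [a, b, c, d, e, f], x ∈ hexagon z) ∧
    l = L ++ [a, f] ++ R ∧ l' = L ++ [a, b, c, d, e, f] ++ R

/-- the event does not see the detours around the hexagons which are not in `S` -/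
def Blind (S : Finset P) (D : Set P) (p q : P) (Q : List P → Prop) : Prop :=
  ∀ (z : P) (l l' : List P), z ∉ S → l ∈ Traj D p q → l' ∈ Traj D p q → Flip z l l' →
    (Q l ↔ Q l')

/-- the hexagon which contains the points -/
theorem face {p q r : P} (h1 : Hex.A p q) (h2 : Hex.A q r) (h3 : p ≠ r) :
    ∃ z : P, Even (z.1 + z.2) ∧ ∀ x ∈ [q, p, Hex.ctr p q r - r, Hex.ctr p q r - q,
      Hex.ctr p q r - p, r], x ∈ hexagon z := by
  obtain ⟨c1, c2⟩ := Hex.ctr_cases p q r
  generalize Hex.ctr p q r = c at c1 c2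
  obtain ⟨p1, p2⟩ := p
  obtain ⟨q1, q2⟩ := q
  obtain ⟨r1, r2⟩ := r
  obtain ⟨x1, x2⟩ := c
  rw [Hex.A_iff] at h1 h2
  simp only [ne_eq, Prod.mk.injEq, not_and] at h1 h2 h3 c1 c2
  refine ⟨(x1 / 2 - 1, (x2 - 1) / 2), ?_, ?_⟩
  · rw [Int.even_iff]
    simp only
    omega
  · intro x hx
    simp only [hexagon, Set.mem_ofPred_eq]
    simp only [List.mem_cons, List.not_mem_nil, or_false] at hx
    rcases hx with rfl | rfl | rfl | rfl | rfl | rfl <;>
      simp only [Prod.mk_sub_mk] <;> omega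

/-- the automorphisms map hexagons to hexagons -/
theorem face_map (y : P) {z : P} (hz : Even (z.1 + z.2)) :
    ∃ z' : P, Even (z'.1 + z'.2) ∧ ∀ x ∈ hexagon z, hexV.φ y x ∈ hexagon z' := by
  obtain ⟨y1, y2⟩ := y
  obtain ⟨z1, z2⟩ := z
  rw [Int.even_iff] at hz
  simp only at hz
  by_cases h : (y1 + y2) % 2 = 0
  · refine ⟨(z1 + y1, z2 + y2), ?_, ?_⟩
    · rw [Int.even_iff]
      simp only
      omega
    · rintro ⟨x1, x2⟩ hx
      simp only [hexagon, Set.mem_ofPred_eq] at hx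
      have e : hexV.φ (y1, y2) (x1, x2) = (x1 + y1, x2 + y2) := by
        unfold hexV
        simp only [h, if_true, Equiv.coe_addRight, Prod.mk_add_mk]
      rw [e]
      simp only [hexagon, Set.mem_ofPred_eq]
      omega
  · refine ⟨(y1 - z1 - 2, y2 - z2 - 1), ?_, ?_⟩
    · rw [Int.even_iff]
      simp only
      omega
    · rintro ⟨x1, x2⟩ hx
      simp only [hexagon, Set.mem_ofPred_eq] at hx
      have e : hexV.φ (y1, y2) (x1, x2) = (y1 - x1, y2 - x2) := by
        unfold hexV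
        simp only [h, if_false, Equiv.subLeft_apply, Prod.mk_sub_mk]
      rw [e]
      simp only [hexagon, Set.mem_ofPred_eq]
      omega

/-- the vertices of the hexagon as a finite set -/
noncomputable def hexF (z : P) : Finset P := Finset.Icc z.1 (z.1 + 2) ×ˢ Finset.Icc z.2 (z.2 + 1)

theorem mem_hexF (z x : P) : x ∈ hexF z ↔ x ∈ hexagon z := by
  unfold hexF hexagon
  rw [Finset.mem_product, Finset.mem_Icc, Finset.mem_Icc]
  rfl

theorem card_hexF (z : P) : (hexF z).card = 6 := by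
  unfold hexF
  rw [Finset.card_product, Int.card_Icc, Int.card_Icc]
  have e1 : z.1 + 2 + 1 - z.1 = 3 := by ring
  have e2 : z.2 + 1 + 1 - z.2 = 2 := by ring
  rw [e1, e2]
  rfl

theorem few_of_blind {S : Finset P} {D : Set P} {p q : P} {Q : List P → Prop}
    (h : Blind S D p q Q) (Q' : List P → Prop) (hQQ : ∀ l, Q' l ↔ Q l ∧ l.getLast? = some q) :
    Few Hex4.rule (DV hexV D p) (S.card * (6 * Hex4.rule.c0))
      (fun v => if Q' (v.map (hexV.φ p)) then (1 : ℝ) else 0) := by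
  intro w hw hD
  obtain ⟨φ, hφ⟩ : ∃ φ, φ = hexV.φ p := ⟨_, rfl⟩
  have hsub : ((Hex4.rule.B w).filter (fun q' =>
      (fun v => if Q' (v.map (hexV.φ p)) then (1 : ℝ) else 0) (Rule.rep w q'.2 q'.1) ≠
      (fun v => if Q' (v.map (hexV.φ p)) then (1 : ℝ) else 0) w)) ⊆
      S.biUnion (fun z => (hexF z).biUnion (fun x => Hex4.rule.cand (φ.symm x))) := by
    rintro ⟨U, U'⟩ hq
    rw [mem_filter, Hex4.rule.mem_B] at hq
    obtain ⟨⟨hT, hF⟩, hne⟩ := hq
    simp only at hT hF hne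
    obtain ⟨L, R, h1, h2, h3, h4, h5⟩ := Rule.rep_all (Hex4.rule.pair _ _ hT).symm hw hF
    rw [h2] at hne
    have hlast : lst (L ++ U ++ R) = lst w := by
      rw [← h2]
      exact lst_rep (Hex4.rule.pair _ _ hT).symm hw hF
    have hwne : w ≠ [] := walk_ne hw
    have hrne : L ++ U ++ R ≠ [] := walk_ne h3
    have hlast' : ((L ++ U ++ R).map (hexV.φ p)).getLast? = (w.map (hexV.φ p)).getLast? := by
      rw [List.getLast?_map, List.getLast?_map, lst_some hwne, lst_some hrne, hlast]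
    have hq' : (w.map (hexV.φ p)).getLast? = some q := by
      by_contra hc
      rw [if_neg (fun h => hc (by rw [← hlast']; exact ((hQQ _).1 h).2)),
        if_neg (fun h => hc ((hQQ _).1 h).2)] at hne
      exact hne rfl
    have hTr : ∀ v : List P, Walk Hex.A v → (∀ x ∈ v, x ∈ w) →
        (v.map (hexV.φ p)).getLast? = some q → v.map (hexV.φ p) ∈ Traj D p q := by
      intro v hv hvw hvq
      rw [Traj_eq]
      refine ⟨?_, hvq, (mp_nodup _).2 hv.2.1, (mp_chain hexV).2 hv.2.2, ?_⟩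
      · rw [List.head?_map, hv.1, Option.map_some, hexV.zero]
      · intro x hx
        rw [List.mem_map] at hx
        obtain ⟨z, hz, rfl⟩ := hx
        exact hD z (hvw z hz)
    have hl' := hTr w hw (fun x hx => hx) hq'
    have hl := hTr (L ++ U ++ R) h3 (by
      intro x hx
      rw [h1]
      simp only [List.mem_append] at hx ⊢
      rcases hx with (hx | hx) | hx
      · exact Or.inl (Or.inl hx)
      · exact Or.inl (Or.inr (Hex4.shr _ _ hT x hx))
      · exact Or.inr hx) (by rw [hlast', hq'])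
    obtain ⟨b, a, f, hU, hU', hab, haf, hbf⟩ := hT
    obtain ⟨z0, hz0, hm0⟩ := face hab haf hbf
    obtain ⟨z1, hz1, hm1⟩ := face_map p hz0
    obtain ⟨c, hc⟩ : ∃ c, c = Hex.ctr b a f - f := ⟨_, rfl⟩
    obtain ⟨d, hd⟩ : ∃ d, d = Hex.ctr b a f - a := ⟨_, rfl⟩
    obtain ⟨e, he⟩ : ∃ e, e = Hex.ctr b a f - b := ⟨_, rfl⟩
    rw [← hc, ← hd, ← he] at hU' hm0
    have hTT : Hex4.rule.T U U' := ⟨b, a, f, hU, by rw [hU', hc, hd, he], hab, haf, hbf⟩
    obtain ⟨-, -, hn, -, hch⟩ := Hex4.rule.pair _ _ hTT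
    rw [hU'] at hn hch
    have hflip : Flip z1 ((L ++ U ++ R).map (hexV.φ p)) (w.map (hexV.φ p)) := by
      refine ⟨hz1, L.map φ, R.map φ, φ a, φ b, φ c, φ d, φ e, φ f, ?_, ?_, ?_, ?_, ?_⟩
      · have := (mp_nodup φ (v := [a, b, c, d, e, f])).2 hn
        simpa using this
      · have h6 : ([a, b, c, d, e, f, a] : List P).IsChain Hex.A := by
          simp only [List.isChain_cons_cons, List.isChain_singleton, and_true] at hch ⊢
          exact ⟨hch.1, hch.2.1, hch.2.2.1, hch.2.2.2.1, hch.2.2.2.2, Hex.A_symm haf⟩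
        have h7 := (mp_chain hexV (x := p)).2 h6
        have e1 : (Nbr : ℤ × ℤ → ℤ × ℤ → Prop) = Hex.A := by
          funext x y
          exact propext nbr_hex
        rw [e1, hφ]
        simpa using h7
      · intro x hx
        rw [hφ] at hx
        have : x ∈ [a, b, c, d, e, f].map (hexV.φ p) := by simpa using hx
        rw [List.mem_map] at this
        obtain ⟨y, hy, rfl⟩ := this
        exact hm1 y (hm0 y hy)
      · rw [hU, hφ]
        simp
      · rw [h1, hU', hφ]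
        simp
    rw [mem_biUnion]
    by_cases hS : z1 ∈ S
    · refine ⟨z1, hS, ?_⟩
      rw [mem_biUnion]
      refine ⟨φ a, ?_, Hex4.rule.mem_cand hTT ?_⟩
      · rw [mem_hexF, hφ]
        exact hm1 a (hm0 a (by simp))
      · rw [Equiv.symm_apply_apply, List.mem_append, hU]
        left
        simp
    · exfalso
      have h9 := h _ _ _ hS hl hl' hflip
      apply hne
      by_cases hQ : Q (w.map (hexV.φ p))
      · rw [if_pos ((hQQ _).2 ⟨h9.2 hQ, by rw [hlast', hq']⟩), if_pos ((hQQ _).2 ⟨hQ, hq'⟩)]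
      · rw [if_neg (fun h => hQ (h9.1 ((hQQ _).1 h).1)), if_neg (fun h => hQ ((hQQ _).1 h).1)]
  refine (card_le_card hsub).trans ?_
  refine Finset.card_biUnion_le_card_mul S _ (6 * Hex4.rule.c0) fun z _ => ?_
  have h1 := Finset.card_biUnion_le_card_mul (hexF z) (fun x => Hex4.rule.cand (φ.symm x))
    Hex4.rule.c0 fun x _ => Hex4.rule.card_cand _
  rw [card_hexF] at h1
  exact h1

/-- **the joint law of the length and of an event which does not see the detours around the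
hexagons, up to `J` of them** -/
theorem hex_blind (J : ℕ) : ∃ C : ℝ, 0 < C ∧ ∀ (D : Set P) (p q : P), D.Finite →
    1 ≤ ‖emb p - emb q‖ → 0 < wH D p q (fun _ => True) →
    ∀ Λ : ℝ, Real.log D.ncard ^ 2 ≤ Λ → Real.log (1 / wH D p q (fun _ => True)) ≤ Λ →
    ∀ S : Finset P, S.card ≤ J → ∀ Q : ℕ → List P → Prop,
    (∀ n, Blind S D p q (Q n)) →
    |wH D p q (fun l => Q (l.length - 1 + 4) l) / wH D p q (fun _ => True) -
      wH D p q (fun l => Q (l.length - 1) l) / wH D p q (fun _ => True)| ≤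
      C * √(Λ / ‖emb p - emb q‖) := by
  obtain ⟨C, hC, h⟩ := hex_few (J * (6 * Hex4.rule.c0))
  refine ⟨C, hC, ?_⟩
  intro D p q hD hd hw Λ hΛ1 hΛ2 S hS Q hQ
  have h1 := h D p q hD hd hw Λ hΛ1 hΛ2 (fun n l => Q n l ∧ l.getLast? = some q) (by
    intro n w hww hDw
    exact (few_of_blind (hQ n) (fun l => Q n l ∧ l.getLast? = some q) (fun _ => Iff.rfl) w hww
      hDw).trans (Nat.mul_le_mul_right _ hS))
  have e1 : ∀ T : List P → Prop, wH D p q (fun l => T l ∧ l.getLast? = some q) = wH D p q T := by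
    intro T
    unfold wH
    have : {l | l ∈ Traj D p q ∧ (T l ∧ l.getLast? = some q)} = {l | l ∈ Traj D p q ∧ T l} := by
      ext l
      simp only [Set.mem_ofPred_eq]
      exact ⟨fun h => ⟨h.1, h.2.1⟩, fun h => ⟨h.1, h.2, h.1.2.1⟩⟩
    rw [this]
  rw [e1 (fun l => Q (l.length - 1 + 4) l), e1 (fun l => Q (l.length - 1) l)] at h1
  exact h1

/-- the crossing numbers -/
theorem blind_cross {J : ℕ} (z : Fin J → P) (hz : ∀ i, Even ((z i).1 + (z i).2)) (D : Set P)
    (p q : P) (U : (Fin J → ℤ) → Prop) :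
    Blind (Finset.univ.image z) D p q (fun l => U (fun i => cross (z i) l)) := by
  rintro z' l l' hz' hl hl' ⟨he, L, R, a, b, c, d, e, f, hn, hch, hm, h1, h2⟩
  have h3 : ∀ i, cross (z i) l = cross (z i) l' := by
    intro i
    rw [h1, h2]
    have h4 : z' ≠ z i := by
      rintro rfl
      exact hz' (Finset.mem_image_of_mem z (Finset.mem_univ i))
    exact (cross_flip (hz i) he h4 hch hm).symm
  simp only [h3]

end Q214.ON
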